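import Pool.Agent.helper41.HFE.Spec

/-!
# Project HFE (MP_3221a1_ag), row hfe:ROU: curves which are unions of rows, upper bound
-/

set_option autoImplicit false

open Polynomial Module Pool.Agent.HFN

namespace Pool.Agent.HFE

noncomputable section

/-- a polynomial of degree `0` in `x` -/
theorem ROU_form {f : AA} (h : dX f = 0) : ∃ P : ℂ[X], f = sw (C P) := by
  refine ⟨(sw f).coeff 0, ?_⟩
  rw [← eq_C_of_natDegree_eq_zero h, sw_sw]

theorem ROU_dY (P : ℂ[X]) : dY (sw (C P)) = P.natDegree := by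
  rw [dY_sw, dX_C]

theorem ROU_ev (z : ℂ × ℂ) (P : ℂ[X]) : ev z (sw (C P)) = P.eval z.2 := by
  rw [ev_sw, ev_C]
  rfl

theorem ROU_evx (z : ℂ × ℂ) (P : ℂ[X]) : ev z (Dx (sw (C P))) = 0 := by
  rw [Dx_sw, Dy_C, map_zero, ev_zero]

theorem ROU_evy (z : ℂ × ℂ) (P : ℂ[X]) : ev z (Dy (sw (C P))) = (derivative P).eval z.2 := by
  rw [Dy_sw, Dx_C, ev_sw, ev_C]
  rfl

open Classical in
/-- counting along the rows -/
theorem ROU_count (Z : Finset (ℂ × ℂ)) (p : ℂ → Prop) [DecidablePred p] :
    (Z.filter fun z => p z.2).card = ∑ y ∈ Z.image Prod.snd, if p y then mr Z y else 0 := by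
  rw [Finset.card_eq_sum_card_fiberwise (f := Prod.snd) (t := Z.image Prod.snd)
    (fun z hz => Finset.mem_image_of_mem _ (Finset.mem_filter.1 hz).1)]
  apply Finset.sum_congr rfl
  intro y _
  by_cases hy : p y
  · rw [if_pos hy]
    unfold mr
    congr 1
    ext z
    rw [Finset.mem_filter, Finset.mem_filter, Finset.mem_filter]
    constructor
    · rintro ⟨⟨h1, -⟩, h3⟩
      exact ⟨h1, h3⟩
    · rintro ⟨h1, h3⟩
      exact ⟨⟨h1, by rw [h3]; exact hy⟩, h3⟩
  · rw [if_neg hy, Finset.card_eq_zero]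
    apply Finset.eq_empty_of_forall_notMem
    intro z hz
    rw [Finset.mem_filter, Finset.mem_filter] at hz
    apply hy
    rw [← hz.2]
    exact hz.1.2

/-- the multiplicities of the roots -/
theorem ROU_mult (P : ℂ[X]) (S : Finset ℂ) : ∑ y ∈ S, P.rootMultiplicity y ≤ P.natDegree := by
  classical
  calc ∑ y ∈ S, P.rootMultiplicity y = ∑ y ∈ S, P.roots.count y :=
        Finset.sum_congr rfl fun y _ => (count_roots P).symm
    _ ≤ ∑ y ∈ S ∪ P.roots.toFinset, P.roots.count y :=
        Finset.sum_le_sum_of_subset Finset.subset_union_left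
    _ = P.roots.card := Multiset.sum_count_eq_card fun a ha => Finset.mem_union_right _ (Multiset.mem_toFinset.2 ha)
    _ ≤ P.natDegree := card_roots' P

theorem ROU_chi {i j b : ℕ} (h : b ≤ j + 1) : chi i j 0 b = (i + 1) * b := by
  unfold chi
  obtain ⟨c, hc⟩ : ∃ c, j + 1 = b + c := ⟨j + 1 - b, by omega⟩
  have h1 : j + 1 - b = c := by omega
  rw [h1, hc, Nat.sub_zero, mul_add]
  omega

theorem ROU : ROU_stmt := by
  classical
  intro Z f i j hf hx hy
  obtain ⟨P, rfl⟩ := ROU_form hx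
  have hP : P ≠ 0 := by
    rintro rfl
    apply hf
    rw [C_0, map_zero]
  rw [ROU_chi hy]
  rw [ROU_dY]
  have hn : nn Z (sw (C P)) = ∑ y ∈ Z.image Prod.snd, if 0 < P.rootMultiplicity y then mr Z y else 0 := by
    rw [← ROU_count Z (fun y => 0 < P.rootMultiplicity y)]
    unfold nn
    congr 1
    ext z
    rw [Finset.mem_filter, Finset.mem_filter, ROU_ev, rootMultiplicity_pos hP]
    exact Iff.rfl
  have hs : sg Z (sw (C P)) = ∑ y ∈ Z.image Prod.snd, if 1 < P.rootMultiplicity y then mr Z y else 0 := by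
    rw [← ROU_count Z (fun y => 1 < P.rootMultiplicity y)]
    unfold sg
    congr 1
    ext z
    rw [Finset.mem_filter, Finset.mem_filter, one_lt_rootMultiplicity_iff_isRoot hP]
    unfold Db
    rw [ROU_ev, ROU_evx, ROU_evy]
    constructor
    · rintro ⟨h1, h2, -, h3⟩
      exact ⟨h1, h2, h3⟩
    · rintro ⟨h1, h2, h3⟩
      exact ⟨h1, h2, rfl, h3⟩
  unfold La Aa
  rw [hn, hs]
  calc 2 * (∑ y ∈ Z.image Prod.snd, if 0 < P.rootMultiplicity y then mr Z y else 0) +
        ∑ y ∈ Z.image Prod.snd, (if 1 < P.rootMultiplicity y then mr Z y else 0)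
      = ∑ y ∈ Z.image Prod.snd, (2 * (if 0 < P.rootMultiplicity y then mr Z y else 0) +
          if 1 < P.rootMultiplicity y then mr Z y else 0) := by
        rw [Finset.mul_sum, Finset.sum_add_distrib]
    _ ≤ ∑ y ∈ Z.image Prod.snd, ((i + 1) * P.rootMultiplicity y +
          max (2 * mr Z y - (i + 1)) (3 * mr Z y - 2 * (i + 1))) := by
        apply Finset.sum_le_sum
        intro y _
        have h2 := le_max_left (2 * mr Z y - (i + 1)) (3 * mr Z y - 2 * (i + 1))
        have h3 := le_max_right (2 * mr Z y - (i + 1)) (3 * mr Z y - 2 * (i + 1))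
        by_cases h0 : 0 < P.rootMultiplicity y
        · rw [if_pos h0]
          by_cases h1 : 1 < P.rootMultiplicity y
          · rw [if_pos h1]
            have h4 : (i + 1) * 2 ≤ (i + 1) * P.rootMultiplicity y := Nat.mul_le_mul_left _ h1
            omega
          · rw [if_neg h1]
            have h4 : (i + 1) * 1 ≤ (i + 1) * P.rootMultiplicity y := Nat.mul_le_mul_left _ h0
            omega
        · rw [if_neg h0, if_neg (by omega)]
          exact Nat.zero_le _
    _ = (i + 1) * (∑ y ∈ Z.image Prod.snd, P.rootMultiplicity y) +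
          ∑ y ∈ Z.image Prod.snd, max (2 * mr Z y - (i + 1)) (3 * mr Z y - 2 * (i + 1)) := by
        rw [Finset.sum_add_distrib, Finset.mul_sum]
    _ ≤ (i + 1) * P.natDegree + ∑ y ∈ Z.image Prod.snd, max (2 * mr Z y - (i + 1)) (3 * mr Z y - 2 * (i + 1)) :=
        Nat.add_le_add_right (Nat.mul_le_mul_left _ (ROU_mult P _)) _

end

end Pool.Agent.HFE
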