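import Pool.Agent.helper41.HFE.SpecD

/-!
# Project HFE (MP_3221a1_ag), row hfe:LOD: the lower bound
-/

set_option autoImplicit false

open Polynomial Module Pool.Agent.HFN

namespace Pool.Agent.HFE

noncomputable section

/-- the column `x = α` -/
def LOD_col (α : ℂ) : AA := C (X - C α)

/-- the row `y = β` -/
def LOD_row (β : ℂ) : AA := sw (C (X - C β))

theorem LOD_col_ne (α : ℂ) : LOD_col α ≠ 0 := by
  unfold LOD_col
  rw [Ne, C_eq_zero]
  exact X_sub_C_ne_zero α

theorem LOD_row_ne (β : ℂ) : LOD_row β ≠ 0 := by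
  unfold LOD_row
  intro h
  exact LOD_col_ne β ((map_eq_zero_iff sw sw.injective).1 h)

theorem LOD_dX_col (α : ℂ) : dX (LOD_col α) = 1 := by
  unfold LOD_col
  rw [dX_C, natDegree_X_sub_C]

theorem LOD_dY_col (α : ℂ) : dY (LOD_col α) = 0 := by
  unfold LOD_col
  rw [dY_C]

theorem LOD_dX_row (β : ℂ) : dX (LOD_row β) = 0 := by
  unfold LOD_row
  rw [dX_sw, dY_C]

theorem LOD_dY_row (β : ℂ) : dY (LOD_row β) = 1 := by
  unfold LOD_row
  rw [dY_sw, dX_C, natDegree_X_sub_C]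

theorem LOD_od_col (α : ℂ) (z : ℂ × ℂ) : od (LOD_col α) z = if z.1 = α then 1 else 0 := by
  have h1 : ev z (LOD_col α) = z.1 - α := by
    unfold LOD_col
    rw [ev_C, eval_sub, eval_X, eval_C]
  have h2 : ¬ Db z (LOD_col α) := by
    rintro ⟨-, h, -⟩
    unfold LOD_col at h
    rw [Dx_C, ev_C, derivative_X_sub_C, eval_one] at h
    exact one_ne_zero h
  unfold od
  rw [if_neg h2, h1]
  by_cases h : z.1 = α
  · rw [if_pos h, if_pos (by rw [h, sub_self])]
  · rw [if_neg h, if_neg (fun h' => h (sub_eq_zero.1 h'))]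

theorem LOD_od_row (β : ℂ) (z : ℂ × ℂ) : od (LOD_row β) z = if z.2 = β then 1 else 0 := by
  have h := LOD_od_col β z.swap
  rw [← show z.swap.1 = z.2 from rfl, ← h]
  unfold od LOD_row LOD_col
  by_cases h1 : Db z.swap (C (X - C β))
  · rw [if_pos h1, if_pos ((Db_sw z _).2 h1)]
  · rw [if_neg h1, if_neg (fun h2 => h1 ((Db_sw z _).1 h2)), ev_sw]

theorem LOD_od_one (z : ℂ × ℂ) : od 1 z = 0 := by
  have h : ev z 1 ≠ 0 := by
    rw [ev_one]
    exact one_ne_zero
  unfold od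
  rw [if_neg (fun h' => h h'.1), if_neg h]

theorem LOD_od_pow (hODM : ODM_stmt) (f : AA) (n : ℕ) (z : ℂ × ℂ) : od (f ^ n) z = min 2 (n * od f z) := by
  induction n with
  | zero => rw [pow_zero, LOD_od_one, Nat.zero_mul]; rfl
  | succ n ih =>
    rw [pow_succ, hODM, ih, Nat.succ_mul]
    omega

theorem LOD_od_prod (hODM : ODM_stmt) {ι : Type} (s : Finset ι) (f : ι → AA) (z : ℂ × ℂ) :
    od (∏ k ∈ s, f k) z = min 2 (∑ k ∈ s, od (f k) z) := by
  classical
  induction s using Finset.induction_on with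
  | empty => rw [Finset.prod_empty, Finset.sum_empty, LOD_od_one]; rfl
  | insert a s ha ih =>
    rw [Finset.prod_insert ha, Finset.sum_insert ha, hODM, ih]
    omega

theorem LOD_sum_min {n : ℕ} (e : Fin n → ℕ) (α : Fin n → ℂ) (hα : Function.Injective α) (k : Fin n) :
    ∑ l, min 2 (e l * if α k = α l then 1 else 0) = min 2 (e k) := by
  rw [Finset.sum_eq_single k]
  · rw [if_pos rfl, mul_one]
  · intro l _ hl
    rw [if_neg (fun h => hl (hα h).symm), mul_zero]
    rfl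
  · intro h
    exact absurd (Finset.mem_univ k) h

theorem LOD_ph (n : ℕ) : ph (min 2 n) = ph n := by
  unfold ph
  rcases n with _ | _ | n
  · rfl
  · rfl
  · have h1 : min 2 (n + 1 + 1) = 2 := by omega
    rw [h1, if_neg (by omega), if_neg (by omega), if_neg (by omega), if_neg (by omega)]

theorem LOD_dY_prod {n : ℕ} (f : Fin n → AA) (e : Fin n → ℕ) (hf : ∀ k, f k ≠ 0) : dY (∏ k, f k ^ e k) = ∑ k, e k * dY (f k) := by
  unfold dY
  rw [natDegree_prod _ _ fun k _ => pow_ne_zero _ (hf k)]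
  exact Finset.sum_congr rfl fun k _ => natDegree_pow _ _

theorem LOD_dX_prod {n : ℕ} (f : Fin n → AA) (e : Fin n → ℕ) (hf : ∀ k, f k ≠ 0) : dX (∏ k, f k ^ e k) = ∑ k, e k * dX (f k) := by
  unfold dX
  rw [map_prod, natDegree_prod _ _ fun k _ => ?_]
  · exact Finset.sum_congr rfl fun k _ => by rw [map_pow, natDegree_pow]
  · rw [map_pow]
    exact pow_ne_zero _ fun h => hf k ((map_eq_zero_iff sw sw.injective).1 h)

theorem LOD_chi {i j a b a' b' : ℕ} (ha : a ≤ a') (hb : b ≤ b') : chi i j a b ≤ chi i j a' b' := by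
  unfold chi
  exact Nat.sub_le_sub_left (Nat.mul_le_mul (by omega) (by omega)) _

open Pool.Agent.helper29.JZ in
/-- the curves `G` + columns + rows -/
theorem LOD_core (hLOB : LOB_stmt) (hLAP : LAP_stmt) (hODM : ODM_stmt) {h h' : ℕ} (x : Fin h → ℂ) (y : Fin h' → ℂ)
    (M : Finset (Fin h × Fin h')) (hx : Function.Injective x) (hy : Function.Injective y) (G : AA) (hG : G ≠ 0)
    (e' : Fin h → ℕ) (e : Fin h' → ℕ) (i j : ℕ) :
    ∑ p ∈ M, ph (od G (x p.1, y p.2) + e' p.1 + e p.2) ≤ df (ZZ x y M) i j + chi i j (dX G + ∑ k, e' k) (dY G + ∑ m, e m) := by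
  have hP : (∏ k, LOD_col (x k) ^ e' k : AA) ≠ 0 := Finset.prod_ne_zero_iff.2 fun k _ => pow_ne_zero _ (LOD_col_ne _)
  have hQ : (∏ m, LOD_row (y m) ^ e m : AA) ≠ 0 := Finset.prod_ne_zero_iff.2 fun k _ => pow_ne_zero _ (LOD_row_ne _)
  have hGP : G * ∏ k, LOD_col (x k) ^ e' k ≠ 0 := mul_ne_zero hG hP
  have hf : G * (∏ k, LOD_col (x k) ^ e' k) * ∏ m, LOD_row (y m) ^ e m ≠ 0 := mul_ne_zero hGP hQ
  have hdX : dX (G * (∏ k, LOD_col (x k) ^ e' k) * ∏ m, LOD_row (y m) ^ e m) = dX G + ∑ k, e' k := by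
    rw [dX_mul hGP hQ, dX_mul hG hP, LOD_dX_prod _ _ fun k => LOD_col_ne _, LOD_dX_prod _ _ fun k => LOD_row_ne _]
    have h1 : ∑ k, e' k * dX (LOD_col (x k)) = ∑ k, e' k := Finset.sum_congr rfl fun k _ => by rw [LOD_dX_col, mul_one]
    have h2 : ∑ m, e m * dX (LOD_row (y m)) = 0 := Finset.sum_eq_zero fun m _ => by rw [LOD_dX_row, mul_zero]
    rw [h1, h2, add_zero]
  have hdY : dY (G * (∏ k, LOD_col (x k) ^ e' k) * ∏ m, LOD_row (y m) ^ e m) = dY G + ∑ m, e m := by
    rw [dY_mul hGP hQ, dY_mul hG hP, LOD_dY_prod _ _ fun k => LOD_col_ne _, LOD_dY_prod _ _ fun k => LOD_row_ne _]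
    have h1 : ∑ k, e' k * dY (LOD_col (x k)) = 0 := Finset.sum_eq_zero fun k _ => by rw [LOD_dY_col, mul_zero]
    have h2 : ∑ m, e m * dY (LOD_row (y m)) = ∑ m, e m := Finset.sum_congr rfl fun m _ => by rw [LOD_dY_row, mul_one]
    rw [h1, h2, add_zero]
  have h1 := hLOB (ZZ x y M) _ i j hf
  rw [hdX, hdY, hLAP] at h1
  refine le_trans (le_of_eq ?_) h1
  unfold ZZ
  rw [Finset.sum_image]
  · apply Finset.sum_congr rfl
    intro p _
    rw [hODM, hODM, LOD_od_prod hODM, LOD_od_prod hODM]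
    have h2 : ∑ k, od (LOD_col (x k) ^ e' k) (x p.1, y p.2) = min 2 (e' p.1) := by
      rw [← LOD_sum_min e' x hx p.1]
      apply Finset.sum_congr rfl
      intro k _
      rw [LOD_od_pow hODM, LOD_od_col]
    have h3 : ∑ m, od (LOD_row (y m) ^ e m) (x p.1, y p.2) = min 2 (e p.2) := by
      rw [← LOD_sum_min e y hy p.2]
      apply Finset.sum_congr rfl
      intro m _
      rw [LOD_od_pow hODM, LOD_od_row]
    rw [h2, h3]
    have h4 : min 2 (min 2 (od G (x p.1, y p.2) + min 2 (min 2 (e' p.1))) + min 2 (min 2 (e p.2))) =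
        min 2 (od G (x p.1, y p.2) + e' p.1 + e p.2) := by omega
    rw [h4, LOD_ph]
  · intro p _ q _ hpq
    exact Prod.ext (hx (Prod.ext_iff.1 hpq).1) (hy (Prod.ext_iff.1 hpq).2)

theorem LOD (hLOB : LOB_stmt) (hLAP : LAP_stmt) (hSMO : SMO_stmt) (hODM : ODM_stmt) : LOD_stmt := by
  refine ⟨?_, ?_⟩
  · intro h h' x y M W a b g hx hy hg ha hb ha1 hb1 hab hW i j
    unfold Df
    apply Finset.sup_le
    rintro ⟨ε, e', e⟩ _
    rw [Nat.sub_le_iff_le_add]
    have h1 := LOD_core hLOB hLAP hODM x y M hx hy (g ^ (ε : ℕ)) (pow_ne_zero _ hg.ne_zero) (fun k => e' k) (fun m => e m) i j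
    rw [dX_pow, dY_pow, ha, hb] at h1
    refine le_trans (le_of_eq ?_) h1
    unfold Lm
    apply Finset.sum_congr rfl
    intro p hp
    have h2 : od (g ^ (ε : ℕ)) (x p.1, y p.2) = if p ∈ W then (ε : ℕ) else 0 := by
      rw [LOD_od_pow hODM]
      have h3 : ¬ Db (x p.1, y p.2) g := hSMO g _ hg (by rw [ha, hb]; exact hab) (by rw [ha]; exact ha1) (by rw [hb]; exact hb1)
      have h4 : (ε : ℕ) < 2 := ε.2
      by_cases hpW : p ∈ W
      · rw [if_pos hpW]
        have h5 : od g (x p.1, y p.2) = 1 := by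
          unfold od
          rw [if_neg h3, if_pos ((hW p hp).1 hpW)]
        rw [h5]
        omega
      · rw [if_neg hpW]
        have h5 : od g (x p.1, y p.2) = 0 := by
          unfold od
          rw [if_neg h3, if_neg fun h6 => hpW ((hW p hp).2 h6)]
        rw [h5]
        omega
    rw [h2]
  · intro h h' x y M a b hx hy i j
    unfold Df
    apply Finset.sup_le
    rintro ⟨ε, e', e⟩ _
    rw [Nat.sub_le_iff_le_add]
    have h1 := LOD_core hLOB hLAP hODM x y M hx hy 1 one_ne_zero (fun k => e' k) (fun m => e m) i j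
    rw [dX_one, dY_one] at h1
    refine le_trans (le_of_eq ?_) (le_trans h1 (Nat.add_le_add_left (LOD_chi ?_ ?_) _))
    · unfold Lm
      apply Finset.sum_congr rfl
      intro p _
      rw [LOD_od_one, if_neg (Finset.notMem_empty p)]
    · exact Nat.add_le_add_right (Nat.zero_le _) _
    · exact Nat.add_le_add_right (Nat.zero_le _) _

end

end Pool.Agent.HFE
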